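import Pool.Agent.helper69.LN.ESpec

/-!
# Row ln:EPJ (MP_069684_lc): the projection for every set of edges
-/

set_option autoImplicit false

namespace Pool.Agent.LN

open Finset Pool.Agent.helper38.Neg Pool.Agent.helper55.NT

theorem EPJ_vr {M r K : ℕ} {U : Finset (Fin M × Fin M)} {P : Pcs M r K U} {l w : ℕ}
    {α β : Wt P l w} {q : Fin K} {e : Pr r} (h : wvr α β q e) :
    ∃ a b : Tv P, α = Sum.inl (a, true) ∧ β = Sum.inl (b, true) ∧ P.leaf q e = a.1 ∧
      P.cen q e = b.1 := by
  rcases α with ⟨a, b⟩ | ic | p | i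
  · cases b
    · exact absurd h id
    · rcases β with ⟨a', b'⟩ | ic | p | i
      · cases b'
        · exact absurd h id
        · exact ⟨a, a', rfl, rfl, h.1, h.2⟩
      · exact absurd h id
      · exact absurd h id
      · exact absurd h id
  · exact absurd h id
  · exact absurd h id
  · exact absurd h id

theorem EPJ_same {M r K : ℕ} {U : Finset (Fin M × Fin M)} {P : Pcs M r K U} {l w : ℕ}
    {α β : Wt P l w} {q q' : Fin K} {e e' : Pr r} (h : wvr α β q e) (h' : wvr α β q' e') :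
    q = q' ∧ e = e' := by
  obtain ⟨a, b, ha, hb, h1, h2⟩ := EPJ_vr h
  obtain ⟨a', b', ha', hb', h1', h2'⟩ := EPJ_vr h'
  rw [ha] at ha'
  rw [hb] at hb'
  have e1 : a = a' := by
    have := Sum.inl.inj ha'
    exact (Prod.mk.inj this).1
  have e2 : b = b' := by
    have := Sum.inl.inj hb'
    exact (Prod.mk.inj this).1
  subst e1 e2
  have hq : q' = q := P.ind q q' e' ⟨e, Or.inl (h1.trans h1'.symm)⟩ ⟨e, Or.inr (h2.trans h2'.symm)⟩
  subst hq
  exact ⟨rfl, P.inj q' (h1.trans h1'.symm)⟩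

theorem EPJ_opp {M r K : ℕ} {U : Finset (Fin M × Fin M)} {P : Pcs M r K U} {l w : ℕ}
    {α β : Wt P l w} {q q' : Fin K} {e e' : Pr r} (h : wvr α β q e) (h' : wvr β α q' e') :
    False := by
  obtain ⟨a, b, ha, hb, h1, h2⟩ := EPJ_vr h
  obtain ⟨b', a', hb', ha', h1', h2'⟩ := EPJ_vr h'
  rw [ha] at ha'
  rw [hb] at hb'
  have e1 : a = a' := by
    have := Sum.inl.inj ha'
    exact (Prod.mk.inj this).1
  have e2 : b = b' := by
    have := Sum.inl.inj hb'
    exact (Prod.mk.inj this).1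
  subst e1 e2
  have hq : q' = q := P.ind q q' e' ⟨e, Or.inr (h2.trans h1'.symm)⟩ ⟨e, Or.inl (h1.trans h2'.symm)⟩
  subst hq
  exact P.dis q' e' e (h1'.trans h2.symm)

theorem EPJ_uniq {M r K : ℕ} {U : Finset (Fin M × Fin M)} {P : Pcs M r K U} {l w : ℕ}
    {α β : Wt P l w} {q q' : Fin K} {e e' : Pr r} (h : wvr α β q e ∨ wvr β α q e)
    (h' : wvr α β q' e' ∨ wvr β α q' e') : q = q' ∧ e = e' := by
  rcases h with h | h <;> rcases h' with h' | h'
  · exact EPJ_same h h'
  · exact absurd (EPJ_opp h h') id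
  · exact absurd (EPJ_opp h h') id
  · exact EPJ_same h h'

theorem EPJ_symm {M r K : ℕ} {U : Finset (Fin M × Fin M)} {P : Pcs M r K U} {l w : ℕ}
    {x : Fin K → Pr r → Bool} {α β : Wt P l w} (h : wadj x α β) : wadj x β α :=
  ⟨h.1.symm, h.2.2.1, h.2.1, h.2.2.2.2, h.2.2.2.1⟩

theorem EPJ (h2 : EGA_stmt) (h3 : EGB_stmt) (h4 : EEM_stmt) : EPJ_stmt := by
  classical
  intro M r K l k U hU P hl hk hM
  obtain ⟨w, φ, hKl, hφ, hφa⟩ := h4 M r K l k U P hk hM
  have key : ∀ e : Fin M × Fin M, ∃ s : Fin (K * (r * r)) ⊕ Bool,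
      (e.1 < e.2 → ∀ x : Fin (K * (r * r)) → Bool, (Sum.elim x id s = true ↔
        ∃ α β, φ α = e.1 ∧ φ β = e.2 ∧ wadj (wbit x) α β)) ∧ ∀ i, s = Sum.inl i → e ∈ U := by
    intro e
    by_cases he : e.1 < e.2
    swap
    · exact ⟨Sum.inr false, fun h => absurd h he, fun i hi => by simp at hi⟩
    by_cases hc : ∃ α β, φ α = e.1 ∧ φ β = e.2 ∧ wcls α ≠ wcls β ∧ ¬ wcf α β ∧ ¬ wcf β α
    swap
    · refine ⟨Sum.inr false, fun _ x => ?_, fun i hi => by simp at hi⟩
      constructor
      · intro h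
        simp at h
      · rintro ⟨α, β, ha, hb, hab⟩
        exact absurd ⟨α, β, ha, hb, hab.1, hab.2.1, hab.2.2.1⟩ hc
    obtain ⟨α, β, ha, hb, c1, c2, c3⟩ := hc
    by_cases hv : ∃ q' e', wvr α β q' e' ∨ wvr β α q' e'
    swap
    · push Not at hv
      refine ⟨Sum.inr true, fun _ x => ?_, fun i hi => by simp at hi⟩
      constructor
      · intro _
        exact ⟨α, β, ha, hb, c1, c2, c3, fun q' e' h => absurd h (hv q' e').1,
          fun q' e' h => absurd h (hv q' e').2⟩
      · intro _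
        rfl
    obtain ⟨q', e', he'⟩ := hv
    refine ⟨Sum.inl (finProdFinEquiv (q', finProdFinEquiv e'.1)), fun _ x => ?_, fun i _ => ?_⟩
    · have hx : Sum.elim x id (Sum.inl (finProdFinEquiv (q', finProdFinEquiv e'.1)) :
          Fin (K * (r * r)) ⊕ Bool) = wbit x q' e' := rfl
      rw [hx]
      constructor
      · intro h
        refine ⟨α, β, ha, hb, c1, c2, c3, fun q'' e'' h'' => ?_, fun q'' e'' h'' => ?_⟩
        · obtain ⟨g1, g2⟩ := EPJ_uniq he' (Or.inl h'')
          rw [← g1, ← g2]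
          exact h
        · obtain ⟨g1, g2⟩ := EPJ_uniq he' (Or.inr h'')
          rw [← g1, ← g2]
          exact h
      · rintro ⟨α', β', ha', hb', hab⟩
        have e1 : α' = α := hφ (ha'.trans ha.symm)
        have e2 : β' = β := hφ (hb'.trans hb.symm)
        subst e1 e2
        rcases he' with h | h
        · exact hab.2.2.2.1 q' e' h
        · exact hab.2.2.2.2 q' e' h
    · rcases he' with h | h
      · obtain ⟨a, b, ha1, hb1, h1, h2⟩ := EPJ_vr h
        have f1 : e.1 = P.leaf q' e' := by rw [← ha, ha1, hφa, h1]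
        have f2 : e.2 = P.cen q' e' := by rw [← hb, hb1, hφa, h2]
        rcases P.mem q' e' with hm | hm
        · rw [← f1, ← f2] at hm
          exact hm
        · have := hU _ hm
          dsimp only at this
          rw [← f1, ← f2] at this
          exact absurd this (not_lt.2 he.le)
      · obtain ⟨a, b, ha1, hb1, h1, h2⟩ := EPJ_vr h
        have f1 : e.2 = P.leaf q' e' := by rw [← hb, ha1, hφa, h1]
        have f2 : e.1 = P.cen q' e' := by rw [← ha, hb1, hφa, h2]
        rcases P.mem q' e' with hm | hm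
        · have := hU _ hm
          dsimp only at this
          rw [← f1, ← f2] at this
          exact absurd this (not_lt.2 he.le)
        · rw [← f1, ← f2] at hm
          exact hm
  choose σ hσ1 hσ2 using key
  refine ⟨fun i => σ (finProdFinEquiv.symm i), fun x => ?_, fun e i h => ?_⟩
  swap
  · dsimp only at h
    rw [Equiv.symm_apply_apply] at h
    exact hσ2 e i h
  have hent : ∀ u v : Fin M, u < v → (sb (fun i => σ (finProdFinEquiv.symm i)) x
      (finProdFinEquiv (u, v)) = true ↔ ∃ α β, φ α = u ∧ φ β = v ∧ wadj (wbit x) α β) := by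
    intro u v huv
    have e0 : sb (fun i => σ (finProdFinEquiv.symm i)) x (finProdFinEquiv (u, v)) =
        Sum.elim x id (σ (finProdFinEquiv.symm (finProdFinEquiv (u, v)))) := rfl
    rw [e0, Equiv.symm_apply_apply]
    exact hσ1 (u, v) huv x
  have hk2 : 2 ≤ k := by
    have : 2 ^ 2 ≤ l ^ 2 := Nat.pow_le_pow_left hl 2
    omega
  constructor
  · rintro ⟨S', hS', hS'a⟩
    have hrange : ∀ u ∈ S', ∃ α, φ α = u := by
      intro u hu
      have h1 : 1 < S'.card := by omega
      obtain ⟨v, hv, hvu⟩ := Finset.exists_mem_ne h1 u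
      rcases lt_or_gt_of_ne hvu with h | h
      · obtain ⟨α, β, ha, hb, -⟩ := (hent v u h).1 (hS'a v hv u hu h)
        exact ⟨β, hb⟩
      · obtain ⟨α, β, ha, hb, -⟩ := (hent u v h).1 (hS'a u hu v hv h)
        exact ⟨α, ha⟩
    have hcard : (S'.preimage φ hφ.injOn).card = Nat.card (Wk P l w) := by
      rw [hKl, ← hS']
      have e : (S'.preimage φ hφ.injOn).image φ = S' := by
        ext u
        rw [mem_image]
        constructor
        · rintro ⟨α, ha, rfl⟩
          exact mem_preimage.1 ha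
        · intro hu
          obtain ⟨α, ha⟩ := hrange u hu
          exact ⟨α, mem_preimage.2 (by rw [ha]; exact hu), ha⟩
      rw [← card_image_of_injective _ hφ, e]
    obtain ⟨q, R, hR, hRa⟩ := h2 M r K l w U P (wbit x) (S'.preimage φ hφ.injOn) hl hcard (by
      intro α ha β hb hne
      have ha' : φ α ∈ S' := mem_preimage.1 ha
      have hb' : φ β ∈ S' := mem_preimage.1 hb
      rcases lt_or_gt_of_ne (fun h => hne (hφ h) : φ α ≠ φ β) with h | h
      · obtain ⟨α', β', h1, h2, h3⟩ := (hent _ _ h).1 (hS'a _ ha' _ hb' h)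
        rw [hφ h1, hφ h2] at h3
        exact h3
      · obtain ⟨α', β', h1, h2, h3⟩ := (hent _ _ h).1 (hS'a _ hb' _ ha' h)
        rw [hφ h1, hφ h2] at h3
        exact EPJ_symm h3)
    exact ⟨q, R, hR, fun u hu v hv huv => hRa u hu v hv huv⟩
  · rintro ⟨q, R, hR, hRa⟩
    obtain ⟨S, hS, hSa⟩ := h3 M r K l w U P (wbit x) q R hR (fun a ha b hb h => hRa a ha b hb h)
    refine ⟨S.image φ, ?_, ?_⟩
    · rw [card_image_of_injective _ hφ, hS, hKl]
    · intro u hu v hv huv
      rw [mem_image] at hu hv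
      obtain ⟨α, ha, rfl⟩ := hu
      obtain ⟨β, hb, rfl⟩ := hv
      rw [hent _ _ huv]
      refine ⟨α, β, rfl, rfl, hSa α ha β hb ?_⟩
      rintro rfl
      exact absurd huv (lt_irrefl _)

end Pool.Agent.LN
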