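import Pool.Agent.helper69.LN.Spec

/-!
# Row ln:PRJ (MP_069684_lc): the projection
-/

set_option autoImplicit false

namespace Pool.Agent.LN

open Finset Pool.Agent.helper38.Neg Pool.Agent.helper55.NT

theorem PRJ_vr {M r : ℕ} {cen : Pr r → Fin M} {l w : ℕ} {α β : Vt cen l w} {e : Pr r}
    (h : vr α β e) : α = Sum.inr (Sum.inl (e, true)) ∧ ∃ q : Ctr cen, β = Sum.inl q ∧ cen e = q.1 := by
  rcases α with q | ⟨e', b⟩ | ic | p | i
  · exact absurd h id
  · cases b
    · exact absurd h id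
    · rcases β with q | e'' | ic | p | i
      · obtain ⟨h1, h2⟩ := h
        subst h1
        exact ⟨rfl, q, rfl, h2⟩
      · exact absurd h id
      · exact absurd h id
      · exact absurd h id
      · exact absurd h id
  · exact absurd h id
  · exact absurd h id
  · exact absurd h id

theorem PRJ_uniq {M r : ℕ} {cen : Pr r → Fin M} {l w : ℕ} {α β : Vt cen l w} {e e' : Pr r}
    (h : vr α β e ∨ vr β α e) (h' : vr α β e' ∨ vr β α e') : e = e' := by
  rcases h with h | h <;> rcases h' with h' | h'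
  · obtain ⟨h1, -⟩ := PRJ_vr h
    obtain ⟨h2, -⟩ := PRJ_vr h'
    rw [h1] at h2
    simpa using h2
  · obtain ⟨h1, -⟩ := PRJ_vr h
    obtain ⟨-, q, h2, -⟩ := PRJ_vr h'
    rw [h1] at h2
    simp at h2
  · obtain ⟨h1, -⟩ := PRJ_vr h
    obtain ⟨-, q, h2, -⟩ := PRJ_vr h'
    rw [h1] at h2
    simp at h2
  · obtain ⟨h1, -⟩ := PRJ_vr h
    obtain ⟨h2, -⟩ := PRJ_vr h'
    rw [h1] at h2
    simpa using h2

theorem PRJ_symm {M r : ℕ} {cen : Pr r → Fin M} {l w : ℕ} {x : Pr r → Bool} {α β : Vt cen l w}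
    (h : adj x α β) : adj x β α :=
  ⟨h.1.symm, h.2.2.1, h.2.1, h.2.2.2.2, h.2.2.2.1⟩

theorem PRJ (h1 : STAR_stmt) (h2 : GA_stmt) (h3 : GB_stmt) (h4 : EMB_stmt) : PRJ_stmt := by
  classical
  intro M r l k U hU hr h2r hl hk hM
  obtain ⟨S0⟩ := h1 M r U hU hr
  obtain ⟨w, φ, hKl, hφ, hφq, hφe⟩ := h4 M r l k U S0 h2r hl hk hM
  have key : ∀ e : Fin M × Fin M, ∃ s : Fin (r * r) ⊕ Bool,
      (e.1 < e.2 → ∀ x : Fin (r * r) → Bool, (Sum.elim x id s = true ↔
        ∃ α β, φ α = e.1 ∧ φ β = e.2 ∧ adj (bit x) α β)) ∧ ∀ i, s = Sum.inl i → e ∈ U := by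
    intro e
    by_cases he : e.1 < e.2
    swap
    · exact ⟨Sum.inr false, fun h => absurd h he, fun i hi => by simp at hi⟩
    by_cases hc : ∃ α β, φ α = e.1 ∧ φ β = e.2 ∧ cls α ≠ cls β ∧ ¬ cf α β ∧ ¬ cf β α
    swap
    · refine ⟨Sum.inr false, fun _ x => ?_, fun i hi => by simp at hi⟩
      constructor
      · intro h
        simp at h
      · rintro ⟨α, β, ha, hb, hab⟩
        exact absurd ⟨α, β, ha, hb, hab.1, hab.2.1, hab.2.2.1⟩ hc
    obtain ⟨α, β, ha, hb, c1, c2, c3⟩ := hc
    by_cases hv : ∃ e', vr α β e' ∨ vr β α e'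
    swap
    · push Not at hv
      refine ⟨Sum.inr true, fun _ x => ?_, fun i hi => by simp at hi⟩
      constructor
      · intro _
        exact ⟨α, β, ha, hb, c1, c2, c3, fun e' h => absurd h (hv e').1,
          fun e' h => absurd h (hv e').2⟩
      · intro _
        rfl
    obtain ⟨e', he'⟩ := hv
    refine ⟨Sum.inl (finProdFinEquiv e'.1), fun _ x => ?_, fun i _ => ?_⟩
    · have hx : Sum.elim x id (Sum.inl (finProdFinEquiv e'.1) : Fin (r * r) ⊕ Bool) = bit x e' :=
        rfl
      rw [hx]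
      constructor
      · intro h
        refine ⟨α, β, ha, hb, c1, c2, c3, fun e'' h'' => ?_, fun e'' h'' => ?_⟩
        · rw [← PRJ_uniq he' (Or.inl h'')]
          exact h
        · rw [← PRJ_uniq he' (Or.inr h'')]
          exact h
      · rintro ⟨α', β', ha', hb', hab⟩
        have e1 : α' = α := hφ (ha'.trans ha.symm)
        have e2 : β' = β := hφ (hb'.trans hb.symm)
        subst e1 e2
        rcases he' with h | h
        · exact hab.2.2.2.1 e' h
        · exact hab.2.2.2.2 e' h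
    · rcases he' with h | h
      · obtain ⟨ha1, q, hb1, hq⟩ := PRJ_vr h
        have f1 : e.1 = S0.leaf e' := by rw [← ha, ha1, hφe]
        have f2 : e.2 = S0.cen e' := by rw [← hb, hb1, hφq, hq]
        rcases S0.mem e' with hm | hm
        · rw [← f1, ← f2] at hm
          exact hm
        · have := hU _ hm
          dsimp only at this
          rw [← f1, ← f2] at this
          exact absurd this (not_lt.2 he.le)
      · obtain ⟨hb1, q, ha1, hq⟩ := PRJ_vr h
        have f1 : e.2 = S0.leaf e' := by rw [← hb, hb1, hφe]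
        have f2 : e.1 = S0.cen e' := by rw [← ha, ha1, hφq, hq]
        rcases S0.mem e' with hm | hm
        · have := hU _ hm
          dsimp only at this
          rw [← f1, ← f2] at this
          exact absurd this (not_lt.2 he.le)
        · rw [← f1, ← f2] at hm
          exact hm
  choose σ hσ1 hσ2 using key
  refine ⟨fun i => σ (finProdFinEquiv.symm i), fun x => ?_, fun e i h => ?_⟩
  swap
  · dsimp only at h
    rw [Equiv.symm_apply_apply] at h
    exact hσ2 e i h
  have hent : ∀ u v : Fin M, u < v → (sb (fun i => σ (finProdFinEquiv.symm i)) x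
      (finProdFinEquiv (u, v)) = true ↔ ∃ α β, φ α = u ∧ φ β = v ∧ adj (bit x) α β) := by
    intro u v huv
    have e0 : sb (fun i => σ (finProdFinEquiv.symm i)) x (finProdFinEquiv (u, v)) =
        Sum.elim x id (σ (finProdFinEquiv.symm (finProdFinEquiv (u, v)))) := rfl
    rw [e0, Equiv.symm_apply_apply]
    exact hσ1 (u, v) huv x
  have hk2 : 2 ≤ k := by
    have : 2 * 2 ^ 2 ≤ 2 * r ^ 2 := Nat.mul_le_mul_left _ (Nat.pow_le_pow_left h2r 2)
    omega
  constructor
  · rintro ⟨S', hS', hS'a⟩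
    have hrange : ∀ u ∈ S', ∃ α, φ α = u := by
      intro u hu
      have h1 : 1 < S'.card := by omega
      obtain ⟨v, hv, hvu⟩ := Finset.exists_mem_ne h1 u
      rcases lt_or_gt_of_ne hvu with h | h
      · obtain ⟨α, β, ha, hb, -⟩ := (hent v u h).1 (hS'a v hv u hu h)
        exact ⟨β, hb⟩
      · obtain ⟨α, β, ha, hb, -⟩ := (hent u v h).1 (hS'a u hu v hv h)
        exact ⟨α, ha⟩
    have hcard : (S'.preimage φ hφ.injOn).card = Nat.card (Kl S0.cen l w) := by
      rw [hKl, ← hS']
      have e : (S'.preimage φ hφ.injOn).image φ = S' := by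
        ext u
        rw [mem_image]
        constructor
        · rintro ⟨α, ha, rfl⟩
          exact mem_preimage.1 ha
        · intro hu
          obtain ⟨α, ha⟩ := hrange u hu
          exact ⟨α, mem_preimage.2 (by rw [ha]; exact hu), ha⟩
      rw [← card_image_of_injective _ hφ, e]
    obtain ⟨R, hR, hRa⟩ := h2 M r l w S0.cen (bit x) (S'.preimage φ hφ.injOn) hcard (by
      intro α ha β hb hne
      have ha' : φ α ∈ S' := mem_preimage.1 ha
      have hb' : φ β ∈ S' := mem_preimage.1 hb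
      rcases lt_or_gt_of_ne (fun h => hne (hφ h) : φ α ≠ φ β) with h | h
      · obtain ⟨α', β', h1, h2, h3⟩ := (hent _ _ h).1 (hS'a _ ha' _ hb' h)
        rw [hφ h1, hφ h2] at h3
        exact h3
      · obtain ⟨α', β', h1, h2, h3⟩ := (hent _ _ h).1 (hS'a _ hb' _ ha' h)
        rw [hφ h1, hφ h2] at h3
        exact PRJ_symm h3)
    exact ⟨R, hR, fun u hu v hv huv => hRa u hu v hv huv⟩
  · rintro ⟨R, hR, hRa⟩
    obtain ⟨S, hS, hSa⟩ := h3 M r l w S0.cen (bit x) R hR (fun a ha b hb h => hRa a ha b hb h)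
    refine ⟨S.image φ, ?_, ?_⟩
    · rw [card_image_of_injective _ hφ, hS, hKl]
    · intro u hu v hv huv
      rw [mem_image] at hu hv
      obtain ⟨α, ha, rfl⟩ := hu
      obtain ⟨β, hb, rfl⟩ := hv
      rw [hent _ _ huv]
      refine ⟨α, β, rfl, rfl, hSa α ha β hb ?_⟩
      rintro rfl
      exact absurd huv (lt_irrefl _)

end Pool.Agent.LN
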